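import Mathlib

/-!
# Traces of equivariant operators on `ℓ²(G × S)` (fallback draft for H79 CG)
-/

set_option autoImplicit false

open scoped Classical InnerProductSpace

noncomputable section

namespace Pool.Agent.H42.CG

/-- the Hilbert space `ℓ²(G × S)` -/
abbrev HS (G S : Type) := lp (fun _ : G × S => ℝ) 2

variable {G S : Type}

/-- basis vectors -/
def ev (x : G) (s : S) : HS G S := lp.single 2 (x, s) (1 : ℝ)

theorem inner_ev (x : G) (s : S) (f : HS G S) : ⟪ev x s, f⟫_ℝ = f (x, s) := by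
  rw [ev, lp.inner_single_left]
  simp

theorem inner_ev' (x : G) (s : S) (f : HS G S) : ⟪f, ev x s⟫_ℝ = f (x, s) := by
  rw [real_inner_comm, inner_ev]

theorem ev_apply (x y : G) (s t : S) : ev x s (y, t) = if y = x ∧ t = s then (1 : ℝ) else 0 := by
  rw [ev]
  by_cases h : y = x ∧ t = s
  · rw [if_pos h, h.1, h.2, lp.single_apply_self]
  · rw [if_neg h, lp.single_apply_ne]
    intro he
    exact h ⟨congrArg Prod.fst he, congrArg Prod.snd he⟩

variable [Group G]

/-- operators commuting with the left translations (by matrix entries) -/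
def Eqv (A : HS G S →L[ℝ] HS G S) : Prop :=
  ∀ g x y s t, A (ev (g * y) t) (g * x, s) = A (ev y t) (x, s)

/-- matrix entries of a composition -/
theorem comp_entry (A B : HS G S →L[ℝ] HS G S) (x y : G) (s t : S) :
    HasSum (fun p : G × S => A (ev p.1 p.2) (x, s) * B (ev y t) p) (A (B (ev y t)) (x, s)) := by
  have h := lp.hasSum_inner (𝕜 := ℝ) ((ContinuousLinearMap.adjoint A) (ev x s)) (B (ev y t))
  rw [ContinuousLinearMap.adjoint_inner_left, inner_ev] at h
  have key : ∀ p : G × S, ⟪(ContinuousLinearMap.adjoint A (ev x s) : G × S → ℝ) p, B (ev y t) p⟫_ℝ =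
      A (ev p.1 p.2) (x, s) * B (ev y t) p := by
   rintro ⟨z, u⟩
   have h1 : (ContinuousLinearMap.adjoint A (ev x s) : G × S → ℝ) (z, u) = A (ev z u) (x, s) := by
     rw [← inner_ev', ContinuousLinearMap.adjoint_inner_left, inner_ev]
   rw [h1]
   simp [mul_comm]
  exact (funext key : _ = _) ▸ h

theorem eqv_comp {A B : HS G S →L[ℝ] HS G S} (hA : Eqv A) (hB : Eqv B) : Eqv (A ∘L B) := by
  intro g x y s t
  have h1 := comp_entry A B (g * x) (g * y) s t
  have h2 := comp_entry A B x y s t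
  refine h1.unique ?_
  let e : G × S ≃ G × S := (Equiv.mulLeft g).prodCongr (Equiv.refl S)
  rw [← e.hasSum_iff]
  have key : ∀ p : G × S, A (ev p.1 p.2) (x, s) * B (ev y t) p =
      ((fun p : G × S => A (ev p.1 p.2) (g * x, s) * B (ev (g * y) t) p) ∘ e) p := by
    rintro ⟨z, u⟩
    show A (ev z u) (x, s) * B (ev y t) (z, u) =
      A (ev (g * z) u) (g * x, s) * B (ev (g * y) t) (g * z, u)
    rw [hA, hB]
  exact (funext key : _ = _) ▸ h2

variable [Fintype S]

/-- the trace -/
def tr (A : HS G S →L[ℝ] HS G S) : ℝ := ∑ s, A (ev 1 s) (1, s)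

theorem tr_comp (A B : HS G S →L[ℝ] HS G S) :
    tr (A ∘L B) = ∑ s, ∑ t, ∑' y, A (ev y t) (1, s) * B (ev 1 s) (y, t) := by
  refine Finset.sum_congr rfl fun s _ => ?_
  have h := comp_entry A B 1 1 s s
  have hs := h.summable
  have h2 : ∀ t : S, Summable fun y : G => A (ev y t) (1, s) * B (ev 1 s) (y, t) := fun t =>
    hs.comp_injective (i := fun y : G => (y, t)) (fun a b hab => congrArg Prod.fst hab)
  show A (B (ev 1 s)) (1, s) = _
  rw [← h.tsum_eq, hs.tsum_prod, ← Summable.tsum_finsetSum fun t _ => h2 t]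
  refine tsum_congr fun y => ?_
  rw [tsum_fintype]

/-- `tr (A B) = tr (B A)` -/
theorem tr_comm {A B : HS G S →L[ℝ] HS G S} (hA : Eqv A) (hB : Eqv B) :
    tr (A ∘L B) = tr (B ∘L A) := by
  rw [tr_comp, tr_comp, Finset.sum_comm]
  refine Finset.sum_congr rfl fun t _ => Finset.sum_congr rfl fun s _ => ?_
  rw [← (Equiv.inv G).tsum_eq]
  refine tsum_congr fun y => ?_
  have h2 := hB y y⁻¹ 1 t s
  rw [mul_one, mul_inv_cancel] at h2
  have h1 := hA y 1 y⁻¹ s t
  rw [mul_one, mul_inv_cancel] at h1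
  show A (ev y⁻¹ t) (1, s) * B (ev 1 s) (y⁻¹, t) = B (ev y s) (1, t) * A (ev 1 t) (y, s)
  rw [h1, ← h2, mul_comm]

/-- idempotents with the same range have the same trace -/
theorem tr_eq {P Q : HS G S →L[ℝ] HS G S} (hP : Eqv P) (hQ : Eqv Q) (h1 : ∀ f, P (Q f) = Q f)
    (h2 : ∀ f, Q (P f) = P f) : tr P = tr Q := by
  have e1 : Q ∘L P = P := by
    ext f
    rw [ContinuousLinearMap.comp_apply, h2]
  have e2 : P ∘L Q = Q := by
    ext f
    rw [ContinuousLinearMap.comp_apply, h1]
  calc tr P = tr (Q ∘L P) := by rw [e1]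
    _ = tr (P ∘L Q) := tr_comm hQ hP
    _ = tr Q := by rw [e2]

end Pool.Agent.H42.CG
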